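import Mathlib
import Pool.Agent.H257R3.SI.Stubs

/-!
# A12: the deterministic counting inequality
-/

set_option autoImplicit false

namespace Pool.Agent.H817R3

open Pool.Agent.H257R3.SI

section

variable {V : Type} [Fintype V] [DecidableEq V]

lemma wt_nonneg {ρ : ℝ} (h0 : 0 ≤ ρ) (h1 : ρ ≤ 1) (F : V → Bool) : 0 ≤ wt ρ F := by
  unfold wt
  refine Finset.prod_nonneg fun v _ => ?_
  split_ifs <;> linarith

lemma Pr_nonneg {ρ : ℝ} (h0 : 0 ≤ ρ) (h1 : ρ ≤ 1) (A : Set (V → Bool)) : 0 ≤ Pr ρ A := by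
  unfold Pr Ex
  refine Finset.sum_nonneg fun F _ => mul_nonneg (wt_nonneg h0 h1 F) ?_
  exact Set.indicator_nonneg (fun _ _ => zero_le_one) _

lemma Pr_mono {ρ : ℝ} (h0 : 0 ≤ ρ) (h1 : ρ ≤ 1) {A B : Set (V → Bool)} (h : A ⊆ B) :
    Pr ρ A ≤ Pr ρ B := by
  unfold Pr Ex
  refine Finset.sum_le_sum fun F _ => mul_le_mul_of_nonneg_left ?_ (wt_nonneg h0 h1 F)
  exact Set.indicator_le_indicator_of_subset h (fun _ => zero_le_one) F

lemma Pr_union_le {ρ : ℝ} (h0 : 0 ≤ ρ) (h1 : ρ ≤ 1) (A B : Set (V → Bool)) :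
    Pr ρ (A ∪ B) ≤ Pr ρ A + Pr ρ B := by
  classical
  unfold Pr Ex
  rw [← Finset.sum_add_distrib]
  refine Finset.sum_le_sum fun F _ => ?_
  rw [← mul_add]
  refine mul_le_mul_of_nonneg_left ?_ (wt_nonneg h0 h1 F)
  by_cases hA : F ∈ A <;> by_cases hB : F ∈ B <;> simp [hA, hB]

lemma Pr_empty {ρ : ℝ} : Pr ρ (∅ : Set (V → Bool)) = 0 := by
  simp [Pr, Ex]

lemma Pr_biUnion_le {ρ : ℝ} (h0 : 0 ≤ ρ) (h1 : ρ ≤ 1) {ι : Type} (S : Finset ι)
    (A : ι → Set (V → Bool)) : Pr ρ (⋃ x ∈ S, A x) ≤ ∑ x ∈ S, Pr ρ (A x) := by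
  classical
  induction S using Finset.induction_on with
  | empty => simp [Pr_empty]
  | insert a S ha ih =>
    rw [Finset.sum_insert ha, Finset.set_biUnion_insert]
    exact (Pr_union_le h0 h1 _ _).trans (add_le_add le_rfl ih)

lemma pt_comm (a b : V) : pt a b = pt b a := by
  funext v
  simp [pt, or_comm]

lemma Dn_comm (r : (V → Bool) → ℝ) (a b : V) : Dn r a b = Dn r b a := by
  unfold Dn
  rw [pt_comm]

/-- the sets `Dn` are down-sets -/
lemma Dn_down {r : (V → Bool) → ℝ} (hr : Monotone r) (a b : V) :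
    ∀ F F', F ≤ F' → F' ∈ Dn r a b → F ∈ Dn r a b := by
  intro F F' h h'
  exact lt_of_le_of_lt (hr h) h'

end

/-- a function of the left coordinates alone is never small if the left coordinate is `true` -/
lemma left_only {m K : ℕ} {r : (Vx m K → Bool) → ℝ} (hr : Monotone r)
    (hl : ∀ F F' : Vx m K → Bool, (∀ e, F (.inl e) = F' (.inl e)) → r F = r F')
    (e e' : Fin m × Fin K) :
    Dn r (.inl e) (.inr e') ∩ {F | F (.inl e) = true} = ∅ := by
  ext F
  simp only [Set.mem_inter_iff, Set.mem_setOf_eq, Set.mem_empty_iff_false, iff_false, not_and]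
  intro h1 h2
  have h3 : r F = r (fun v => Sum.elim (fun e => F (.inl e)) (fun _ => true) v) :=
    hl _ _ fun e => rfl
  have h4 : pt (Sum.inl e : Vx m K) (.inr e') ≤
      (fun v => Sum.elim (fun e => F (.inl e)) (fun _ => true) v) := by
    intro v
    rcases v with v | v
    · by_cases hv : v = e
      · subst hv
        simp [h2, Bool.le_true]
      · simp [pt, hv]
    · simp [Bool.le_true]
  have h5 := hr h4
  have h6 : r F < r (pt (Sum.inl e : Vx m K) (.inr e')) := h1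
  rw [h3] at h6
  exact absurd h6 (not_lt.2 h5)

lemma right_only {m K : ℕ} {r : (Vx m K → Bool) → ℝ} (hr : Monotone r)
    (hl : ∀ F F' : Vx m K → Bool, (∀ e, F (.inr e) = F' (.inr e)) → r F = r F')
    (e e' : Fin m × Fin K) :
    Dn r (.inl e) (.inr e') ∩ {F | F (.inr e') = true} = ∅ := by
  ext F
  simp only [Set.mem_inter_iff, Set.mem_setOf_eq, Set.mem_empty_iff_false, iff_false, not_and]
  intro h1 h2
  have h3 : r F = r (fun v => Sum.elim (fun _ => true) (fun e => F (.inr e)) v) :=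
    hl _ _ fun e => rfl
  have h4 : pt (Sum.inl e : Vx m K) (.inr e') ≤
      (fun v => Sum.elim (fun _ => true) (fun e => F (.inr e)) v) := by
    intro v
    rcases v with v | v
    · simp [Bool.le_true]
    · by_cases hv : v = e'
      · subst hv
        simp [h2, Bool.le_true]
      · simp [pt, hv]
  have h5 := hr h4
  have h6 : r F < r (pt (Sum.inl e : Vx m K) (.inr e')) := h1
  rw [h3] at h6
  exact absurd h6 (not_lt.2 h5)

theorem a12 (h3 : St_A3) (h8 : St_A8) (h11 : St_A11) : St_A12 := by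
  classical
  intro m K s t ρ hρ hρ1 cells pr hcells hpr G hG
  have hρ0 : 0 ≤ ρ := hρ.le
  -- the points
  let a : Fin m → Fin K → Vx m K := fun i u => .inl (i, u)
  let b : Fin m → Fin K → Vx m K := fun j u => .inr (j, u)
  let T1 : Fin m → Fin K → Fin m → Finset (Fin t) := fun i u j =>
    Finset.univ.filter fun l => Pr ρ (Dn (pr i j l) (a i u) (b j u) ∩ {F | F (a i u) = true}) ≤
      ρ / 8 * Pr ρ (Dn (pr i j l) (a i u) (b j u))
  let T2 : Fin m → Fin K → Fin m → Finset (Fin t) := fun i u j =>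
    Finset.univ.filter fun l => Pr ρ (Dn (pr i j l) (a i u) (b j u) ∩ {F | F (b j u) = true}) ≤
      ρ / 8 * Pr ρ (Dn (pr i j l) (a i u) (b j u))
  let M : Fin m → Fin K → Fin m → Finset (Fin s) := fun i u j =>
    Finset.univ.filter fun c =>
      ρ / 8 * Pr ρ (Dn (cells c) (a i u) (b j u)) <
        Pr ρ (Dn (cells c) (a i u) (b j u) ∩ {F | F (a i u) = true}) ∧
      ρ / 8 * Pr ρ (Dn (cells c) (a i u) (b j u)) <
        Pr ρ (Dn (cells c) (a i u) (b j u) ∩ {F | F (b j u) = true})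
  -- the covering
  have hcover : ∀ i u j, G i u j ⊆
      (⋃ l ∈ T1 i u j, Dn (pr i j l) (a i u) (b j u) ∩ {F | F (b j u) = true}) ∪
      (⋃ l ∈ T2 i u j, Dn (pr i j l) (a i u) (b j u) ∩ {F | F (b j u) = true}) ∪
      (⋃ c ∈ M i u j, Dn (cells c) (a i u) (b j u) ∩ {F | F (b j u) = true}) := by
    intro i u j F hF
    obtain ⟨hFb, l, hl⟩ := hG i u j F hF
    by_cases h1 : l ∈ T1 i u j
    · left; left
      simp only [Set.mem_iUnion]
      exact ⟨l, h1, hl, hFb⟩
    by_cases h2 : l ∈ T2 i u j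
    · left; right
      simp only [Set.mem_iUnion]
      exact ⟨l, h2, hl, hFb⟩
    right
    have h1' : ρ / 8 * Pr ρ (Dn (pr i j l) (a i u) (b j u)) <
        Pr ρ (Dn (pr i j l) (a i u) (b j u) ∩ {F | F (a i u) = true}) := by
      by_contra hcon
      exact h1 (Finset.mem_filter.2 ⟨Finset.mem_univ _, not_lt.1 hcon⟩)
    have h2' : ρ / 8 * Pr ρ (Dn (pr i j l) (a i u) (b j u)) <
        Pr ρ (Dn (pr i j l) (a i u) (b j u) ∩ {F | F (b j u) = true}) := by
      by_contra hcon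
      exact h2 (Finset.mem_filter.2 ⟨Finset.mem_univ _, not_lt.1 hcon⟩)
    obtain ⟨hmono, hcase⟩ := hpr i j l
    have hnn : 0 ≤ ρ / 8 * Pr ρ (Dn (pr i j l) (a i u) (b j u)) :=
      mul_nonneg (by positivity) (Pr_nonneg hρ0 hρ1 _)
    rcases hcase with hL | hR | ⟨c, hc⟩
    · exfalso
      have := left_only hmono hL (i, u) (j, u)
      rw [show Dn (pr i j l) (a i u) (b j u) ∩ {F | F (a i u) = true} = ∅ from this,
        Pr_empty] at h1'
      linarith
    · exfalso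
      have := right_only hmono hR (i, u) (j, u)
      rw [show Dn (pr i j l) (a i u) (b j u) ∩ {F | F (b j u) = true} = ∅ from this,
        Pr_empty] at h2'
      linarith
    · simp only [Set.mem_iUnion]
      refine ⟨c, ?_, ?_, hFb⟩
      · rw [hc] at h1' h2'
        exact Finset.mem_filter.2 ⟨Finset.mem_univ _, h1', h2'⟩
      · rw [← hc]
        exact hl
  -- the bound of one summand
  have hone : ∀ i u j, Pr ρ (G i u j) ≤
      (∑ l ∈ T1 i u j, ρ * Pr ρ (Dn (pr i j l) (a i u) (b j u))) +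
      (∑ l ∈ T2 i u j, ρ * Pr ρ (Dn (pr i j l) (a i u) (b j u))) +
      (∑ c ∈ M i u j, ρ * Pr ρ (Dn (cells c) (a i u) (b j u))) := by
    intro i u j
    refine (Pr_mono hρ0 hρ1 (hcover i u j)).trans ?_
    refine (Pr_union_le hρ0 hρ1 _ _).trans (add_le_add ((Pr_union_le hρ0 hρ1 _ _).trans
      (add_le_add ?_ ?_)) ?_)
    · refine (Pr_biUnion_le hρ0 hρ1 _ _).trans (Finset.sum_le_sum fun l _ => ?_)
      exact h3 _ ρ _ _ hρ0 hρ1 (Dn_down (hpr i j l).1 _ _)
    · refine (Pr_biUnion_le hρ0 hρ1 _ _).trans (Finset.sum_le_sum fun l _ => ?_)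
      exact h3 _ ρ _ _ hρ0 hρ1 (Dn_down (hpr i j l).1 _ _)
    · refine (Pr_biUnion_le hρ0 hρ1 _ _).trans (Finset.sum_le_sum fun c _ => ?_)
      exact h3 _ ρ _ _ hρ0 hρ1 (Dn_down (hcells c) _ _)
  -- type 1
  have ht1 : ∑ i, ∑ u, ∑ j, ∑ l ∈ T1 i u j, ρ * Pr ρ (Dn (pr i j l) (a i u) (b j u)) ≤
      48 * m ^ 2 * t := by
    have e1 : ∑ i, ∑ u, ∑ j, ∑ l ∈ T1 i u j, ρ * Pr ρ (Dn (pr i j l) (a i u) (b j u)) =
        ∑ i, ∑ j, ∑ l, ∑ u with l ∈ T1 i u j, ρ * Pr ρ (Dn (pr i j l) (a i u) (b j u)) := by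
      refine Finset.sum_congr rfl fun i _ => ?_
      rw [Finset.sum_comm]
      refine Finset.sum_congr rfl fun j _ => ?_
      rw [Finset.sum_comm' (t' := Finset.univ) (s' := fun l => Finset.univ.filter fun u => l ∈ T1 i u j)]
      intro u l
      simp
    rw [e1]
    have e2 : ∀ i j l, ∑ u with l ∈ T1 i u j, ρ * Pr ρ (Dn (pr i j l) (a i u) (b j u)) ≤ 48 := by
      intro i j l
      rw [← Finset.mul_sum]
      have h := h8 (Vx m K) ρ (Fin K) (Finset.univ.filter fun u => l ∈ T1 i u j) (a i) (b j)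
        (pr i j l) hρ hρ1 (hpr i j l).1 (by
          intro u _ u' _ huu
          have h' : ((i, u) : Fin m × Fin K) = (i, u') := Sum.inl_injective huu
          exact (Prod.mk.inj h').2)
        (by
          intro u hu
          have hu' := (Finset.mem_filter.1 hu).2
          exact (Finset.mem_filter.1 hu').2)
      calc _ ≤ ρ * (48 / ρ) := mul_le_mul_of_nonneg_left h hρ0
        _ = 48 := by field_simp
    calc _ ≤ ∑ i : Fin m, ∑ j : Fin m, ∑ l : Fin t, (48 : ℝ) :=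
          Finset.sum_le_sum fun i _ => Finset.sum_le_sum fun j _ => Finset.sum_le_sum fun l _ =>
            e2 i j l
      _ = 48 * m ^ 2 * t := by
          simp only [Finset.sum_const, Finset.card_univ, Fintype.card_fin, nsmul_eq_mul]
          ring
  -- type 2
  have ht2 : ∑ i, ∑ u, ∑ j, ∑ l ∈ T2 i u j, ρ * Pr ρ (Dn (pr i j l) (a i u) (b j u)) ≤
      48 * m ^ 2 * t := by
    have e1 : ∑ i, ∑ u, ∑ j, ∑ l ∈ T2 i u j, ρ * Pr ρ (Dn (pr i j l) (a i u) (b j u)) =
        ∑ i, ∑ j, ∑ l, ∑ u with l ∈ T2 i u j, ρ * Pr ρ (Dn (pr i j l) (a i u) (b j u)) := by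
      refine Finset.sum_congr rfl fun i _ => ?_
      rw [Finset.sum_comm]
      refine Finset.sum_congr rfl fun j _ => ?_
      rw [Finset.sum_comm' (t' := Finset.univ) (s' := fun l => Finset.univ.filter fun u => l ∈ T2 i u j)]
      intro u l
      simp
    rw [e1]
    have e2 : ∀ i j l, ∑ u with l ∈ T2 i u j, ρ * Pr ρ (Dn (pr i j l) (a i u) (b j u)) ≤ 48 := by
      intro i j l
      rw [← Finset.mul_sum]
      have h := h8 (Vx m K) ρ (Fin K) (Finset.univ.filter fun u => l ∈ T2 i u j) (b j) (a i)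
        (pr i j l) hρ hρ1 (hpr i j l).1 (by
          intro u _ u' _ huu
          have h' : ((j, u) : Fin m × Fin K) = (j, u') := Sum.inr_injective huu
          exact (Prod.mk.inj h').2)
        (by
          intro u hu
          have hu' := (Finset.mem_filter.1 hu).2
          rw [Dn_comm]
          exact (Finset.mem_filter.1 hu').2)
      calc _ ≤ ρ * (48 / ρ) := by
            refine mul_le_mul_of_nonneg_left ?_ hρ0
            refine le_trans (le_of_eq ?_) h
            refine Finset.sum_congr rfl fun u _ => ?_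
            rw [Dn_comm]
        _ = 48 := by field_simp
    calc _ ≤ ∑ i : Fin m, ∑ j : Fin m, ∑ l : Fin t, (48 : ℝ) :=
          Finset.sum_le_sum fun i _ => Finset.sum_le_sum fun j _ => Finset.sum_le_sum fun l _ =>
            e2 i j l
      _ = 48 * m ^ 2 * t := by
          simp only [Finset.sum_const, Finset.card_univ, Fintype.card_fin, nsmul_eq_mul]
          ring
  -- mixed
  have ht3 : ∑ i, ∑ u, ∑ j, ∑ c ∈ M i u j, ρ * Pr ρ (Dn (cells c) (a i u) (b j u)) ≤
      s * (ρ * c1 ρ) := by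
    have e1 : ∑ i, ∑ u, ∑ j, ∑ c ∈ M i u j, ρ * Pr ρ (Dn (cells c) (a i u) (b j u)) =
        ∑ c, ∑ p : Fin m × Fin K × Fin m with c ∈ M p.1 p.2.1 p.2.2,
          ρ * Pr ρ (Dn (cells c) (a p.1 p.2.1) (b p.2.2 p.2.1)) := by
      rw [← Finset.sum_comm' (s := (Finset.univ : Finset (Fin m × Fin K × Fin m)))
        (t := fun p => M p.1 p.2.1 p.2.2)]
      · rw [Fintype.sum_prod_type]
        refine Finset.sum_congr rfl fun i _ => ?_
        rw [Fintype.sum_prod_type]
      · intro p c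
        simp
    rw [e1]
    have e2 : ∀ c, ∑ p : Fin m × Fin K × Fin m with c ∈ M p.1 p.2.1 p.2.2,
          ρ * Pr ρ (Dn (cells c) (a p.1 p.2.1) (b p.2.2 p.2.1)) ≤ ρ * c1 ρ := by
      intro c
      rw [← Finset.mul_sum]
      refine mul_le_mul_of_nonneg_left ?_ hρ0
      refine h11 (Vx m K) ρ (Fin m × Fin K × Fin m)
        (Finset.univ.filter fun p => c ∈ M p.1 p.2.1 p.2.2)
        (fun p => a p.1 p.2.1) (fun p => b p.2.2 p.2.1) (cells c) hρ hρ1 (hcells c) ?_ ?_ ?_ ?_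
      · intro p _ q _ h
        exact Sum.inl_ne_inr h
      · intro p _ q _ h h'
        have e1 : (p.1, p.2.1) = (q.1, q.2.1) := Sum.inl_injective h
        have e2 : (p.2.2, p.2.1) = (q.2.2, q.2.1) := Sum.inr_injective h'
        rw [Prod.mk.injEq] at e1 e2
        exact Prod.ext e1.1 (Prod.ext e1.2 e2.1)
      · intro p hp
        exact (Finset.mem_filter.1 (Finset.mem_filter.1 hp).2).2.1
      · intro p hp
        exact (Finset.mem_filter.1 (Finset.mem_filter.1 hp).2).2.2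
    calc _ ≤ ∑ c : Fin s, ρ * c1 ρ := Finset.sum_le_sum fun c _ => e2 c
      _ = s * (ρ * c1 ρ) := by
          simp only [Finset.sum_const, Finset.card_univ, Fintype.card_fin, nsmul_eq_mul]
  calc ∑ i, ∑ u, ∑ j, Pr ρ (G i u j) ≤ ∑ i, ∑ u, ∑ j,
      ((∑ l ∈ T1 i u j, ρ * Pr ρ (Dn (pr i j l) (a i u) (b j u))) +
      (∑ l ∈ T2 i u j, ρ * Pr ρ (Dn (pr i j l) (a i u) (b j u))) +
      (∑ c ∈ M i u j, ρ * Pr ρ (Dn (cells c) (a i u) (b j u)))) :=
        Finset.sum_le_sum fun i _ => Finset.sum_le_sum fun u _ => Finset.sum_le_sum fun j _ =>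
          hone i u j
    _ = (∑ i, ∑ u, ∑ j, ∑ l ∈ T1 i u j, ρ * Pr ρ (Dn (pr i j l) (a i u) (b j u))) +
        (∑ i, ∑ u, ∑ j, ∑ l ∈ T2 i u j, ρ * Pr ρ (Dn (pr i j l) (a i u) (b j u))) +
        (∑ i, ∑ u, ∑ j, ∑ c ∈ M i u j, ρ * Pr ρ (Dn (cells c) (a i u) (b j u))) := by
        simp only [Finset.sum_add_distrib]
    _ ≤ 48 * m ^ 2 * t + 48 * m ^ 2 * t + s * (ρ * c1 ρ) := add_le_add (add_le_add ht1 ht2) ht3
    _ = 96 * m ^ 2 * t + s * (ρ * c1 ρ) := by ring

end Pool.Agent.H817R3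

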